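import Mathlib
import Pool.Agent.Helper22.RKI.St

/-!
# Project RK, part (i), module FORM
-/

set_option autoImplicit false

namespace Pool.Agent.Helper1.RKI

open Pool.Agent.Helper43.RK Pool.Agent.Helper22.RKI

section

variable {k : ℕ} {A : Type} [CommRing A] {G : Type} [Group G] (D : Fd k A G)

theorem pone_mul (y : A) (h : D.p y = 1) (m : ℤ) : D.p (((D.two ^ m : Aˣ) : A) * y) = 1 := by
  have h1 := D.fzp (-m) y
  rw [h, neg_neg, mul_one] at h1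
  have h2 : D.p (((D.two ^ m : Aˣ) : A) * y) * D.f ^ (-m) = 1 * D.f ^ (-m) := by
    rw [one_mul]; exact h1.symm
  exact mul_right_cancel h2

theorem pcast {t : G} (ht : D.p 1 = t) (m : ℤ) : D.p (m : A) = t ^ m := by
  have := D.pint m 1
  rw [mul_one, ht] at this
  exact this

theorem cval (hk : 1 ≤ k) : ((D.c : Aˣ) : A) = 2 ^ (k - 1) := by
  unfold Fd.c
  have : (k : ℤ) - 1 = ((k - 1 : ℕ) : ℤ) := by omega
  rw [this, zpow_natCast, Units.val_pow_eq_pow_val, D.htwo]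

theorem qval : ((D.q : Aˣ) : A) = 2 ^ k := by
  unfold Fd.q
  rw [zpow_natCast, Units.val_pow_eq_pow_val, D.htwo]

theorem q2c (hk : 1 ≤ k) : ((D.q : Aˣ) : A) = 2 * ((D.c : Aˣ) : A) := by
  rw [qval, cval D hk, ← pow_succ']
  congr 1
  omega

end

theorem hFORM : StFORM := by
  intro hSC hTH hT3 hCO1 hCO2 hDY n k hk G _ f a t hft hfa hrel
  obtain ⟨A, _, two, p, htwo, padd, hpf, hp1⟩ := hDY G t f hft
  let D : Fd k A G := ⟨two, p, f, a, htwo, padd, hpf, hfa⟩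
  have hpD : D.p 1 = t := hp1
  have hZ : D.Z = f ^ (1 - (k : ℤ)) := rfl
  have hDa : D.a = a := rfl
  -- elements of the ring
  set C : A := ((D.c : Aˣ) : A) with hCdef
  set Q : A := ((D.q : Aˣ) : A) with hQdef
  set Ci : A := ((D.c⁻¹ : Aˣ) : A) with hCidef
  have hCC : C * Ci = 1 := Units.mul_inv D.c
  have hC : C = 2 ^ (k - 1) := cval D hk
  have hQ : Q = 2 ^ k := qval D
  have hQC : Q = 2 * C := q2c D hk
  have hCk : ((D.c ^ (k : ℤ) : Aˣ) : A) = C ^ k := by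
    rw [zpow_natCast, Units.val_pow_eq_pow_val]
  have hCmk : ((D.c ^ (-(k : ℤ)) : Aˣ) : A) = Ci ^ k := by
    rw [zpow_neg, zpow_natCast, ← inv_pow, Units.val_pow_eq_pow_val]
  have hCCk : C ^ k * Ci ^ k = 1 := by rw [← mul_pow, hCC, one_pow]
  set r : A := -(2 : A) ^ n with hr
  set c0 : A := r + Ci with hc0
  -- the relator
  have hR : D.Tri (-1) (-(r + 1)) (r * C) 1 := by
    show D.a * D.p (-1) * D.a = D.p (-(r + 1)) * D.a * D.p (r * C) * D.Z ^ (1 : ℤ)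
    have e1 : D.p (-1) = t⁻¹ := by rw [D.pneg, hpD]
    have e2 : D.p (-(r + 1)) = t ^ ((2 : ℤ) ^ n - 1) := by
      rw [← pcast D hpD]
      congr 1
      push_cast
      rw [hr]
      ring
    have e3 : D.p (r * C) * D.Z ^ (1 : ℤ) = D.Z ^ (1 : ℤ) * D.p r := by
      rw [D.Zp]
      congr 2
      rw [zpow_one, mul_comm]
    have e4 : D.p r = t ^ (-(2 : ℤ) ^ n) := by
      rw [← pcast D hpD]
      congr 1
      push_cast
      rw [hr]
    rw [mul_assoc (D.p (-(r + 1)) * D.a), e3, e1, e2, e4, zpow_one, hZ, hDa]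
    have h := hrel
    unfold Rel0 at h
    rw [h]
    group
  -- Y
  have hY : D.Tri (-c0) (-(Q - 1)) (-(r * (Q - 1) * ((D.c ^ (k : ℤ) : Aˣ) : A)))
      (2 * (k : ℤ)) := by
    have h := hTH k A G D (-1) (-(r + 1)) (r * C) 1 hR
    have e1 : (-1 - r * C) * ((D.c ^ (-(1 : ℤ)) : Aˣ) : A) = -c0 := by
      rw [zpow_neg_one]
      show (-1 - r * C) * Ci = -(r + Ci)
      linear_combination (-r) * hCC
    have e2 : (((D.q : Aˣ) : A) - 1) * (-1) = -(Q - 1) := by ring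
    have e3 : -((((D.q : Aˣ) : A) - 1) * (r * C) * ((D.c ^ ((k : ℤ) - 1) : Aˣ) : A)) =
        -(r * (Q - 1) * ((D.c ^ (k : ℤ) : Aˣ) : A)) := by
      have : ((D.c ^ (k : ℤ) : Aˣ) : A) = C * ((D.c ^ ((k : ℤ) - 1) : Aˣ) : A) := by
        rw [hCdef, ← Units.val_mul, mul_comm, ← zpow_add_one]
        congr 2
        ring
      rw [this]
      ring
    have e4 : (k : ℤ) * (1 + 1) = 2 * k := by ring
    rw [e1, e2, e3, e4] at h
    exact h
  -- W
  have hW : D.Tri ((-c0 - -(r * (Q - 1) * ((D.c ^ (k : ℤ) : Aˣ) : A))) *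
      ((D.c ^ (-(2 * (k : ℤ))) : Aˣ) : A)) (-((Q - 1) * c0)) (r * (Q - 1) ^ 2)
      ((k : ℤ) * (2 * k + 1)) := by
    have h := hTH k A G D _ _ _ _ hY
    have e2 : (((D.q : Aˣ) : A) - 1) * (-c0) = -((Q - 1) * c0) := by ring
    have e3 : -((((D.q : Aˣ) : A) - 1) * (-(r * (Q - 1) * ((D.c ^ (k : ℤ) : Aˣ) : A))) *
        ((D.c ^ ((k : ℤ) - 2 * (k : ℤ)) : Aˣ) : A)) = r * (Q - 1) ^ 2 := by
      have e5 : (k : ℤ) - 2 * (k : ℤ) = -(k : ℤ) := by ring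
      rw [e5, hCk, hCmk]
      show -((Q - 1) * (-(r * (Q - 1) * C ^ k)) * Ci ^ k) = r * (Q - 1) ^ 2
      linear_combination (r * (Q - 1) ^ 2) * hCCk
    rw [e2, e3] at h
    exact h
  have h3 := hT3 hSC k A G D r c0 _ rfl hY hW
  -- SC of Y
  have hS := hSC k A G D _ _ _ _ hY (n : ℤ)
  have hl : ((D.two ^ (n : ℤ) : Aˣ) : A) * -(Q - 1) = -(-(r * (Q - 1))) := by
    rw [zpow_natCast, Units.val_pow_eq_pow_val, D.htwo, hr]
    ring
  rw [hl] at hS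
  have h4 := hCO1 k A G D _ _ _ _ _ _ _ h3 hS
  obtain ⟨hz, hy⟩ := hCO2 k A G D _ _ _ h4
  refine ⟨?_, ?_, ?_⟩
  · rw [hZ, ← zpow_mul] at hz
    have e : (1 - (k : ℤ)) * ((k : ℤ) + 1) = -((k ^ 2 - 1 : ℕ) : ℤ) := by
      have h1 : 1 ≤ k ^ 2 := Nat.one_le_pow _ _ hk
      push_cast [Nat.cast_sub h1]
      ring
    rw [e, zpow_neg, zpow_natCast, inv_eq_one] at hz
    exact hz
  · set e1 : ℤ := 2 * (k : ℤ) ^ 2 + k - 1 with he1
    have h5 := pone_mul D _ hy (((k : ℤ) - 1) * (e1 + 1 + k))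
    have hu : ((D.two ^ (((k : ℤ) - 1) * (e1 + 1 + k)) : Aˣ) : A) * ((D.c ^ (-e1) : Aˣ) : A) =
        C ^ (k + 1) := by
      have : D.two ^ (((k : ℤ) - 1) * (e1 + 1 + k)) * D.c ^ (-e1) = D.c ^ (k + 1) := by
        have h6 : D.two ^ (((k : ℤ) - 1) * (e1 + 1 + k)) = D.c ^ (e1 + 1 + k) := by
          rw [zpow_mul]; rfl
        rw [h6, ← zpow_add, ← zpow_natCast]
        congr 1
        push_cast
        ring
      rw [← Units.val_mul, this, Units.val_pow_eq_pow_val]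
    have hqn : ((D.q ^ (n : ℤ) : Aˣ) : A) = Q ^ n := by
      rw [zpow_natCast, Units.val_pow_eq_pow_val]
    have hM : ((D.two ^ (((k : ℤ) - 1) * (e1 + 1 + k)) : Aˣ) : A) *
        (((D.q : A) - 2) * (((D.q : A) - 1) * ((((D.q ^ (n : ℤ) : Aˣ) : A) * -c0 -
          c0 * ((D.c ^ (-(k : ℤ)) : Aˣ) : A)) * ((D.c ^ (-e1) : Aˣ) : A)))) =
        ((2 * (2 ^ (k - 1) - 1) * (2 ^ k - 1) * (2 ^ (n + k - 1) - 1) *
          (2 ^ (k * (n + k - 1)) + 1) : ℕ) : A) := by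
      have g1 : ((2 ^ (k - 1) - 1 : ℕ) : A) = C - 1 := by
        rw [Nat.cast_sub (Nat.one_le_two_pow), hC]
        push_cast
        ring
      have g2 : ((2 ^ k - 1 : ℕ) : A) = Q - 1 := by
        rw [Nat.cast_sub (Nat.one_le_two_pow), hQ]
        push_cast
        ring
      have g3 : ((2 ^ (n + k - 1) - 1 : ℕ) : A) = -(r * C) - 1 := by
        rw [Nat.cast_sub (Nat.one_le_two_pow), hC, hr]
        have : n + k - 1 = n + (k - 1) := by omega
        rw [this]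
        push_cast
        ring
      have g4 : ((2 ^ (k * (n + k - 1)) + 1 : ℕ) : A) = Q ^ n * C ^ k + 1 := by
        have : k * (n + k - 1) = k * n + (k - 1) * k := by
          have h7 : n + k - 1 = n + (k - 1) := by omega
          rw [h7]
          ring
        rw [this, hQ, hC]
        push_cast
        ring
      rw [Nat.cast_mul, Nat.cast_mul, Nat.cast_mul, Nat.cast_mul, g1, g2, g3, g4, hqn, hCmk]
      show ((D.two ^ (((k : ℤ) - 1) * (e1 + 1 + k)) : Aˣ) : A) * ((Q - 2) * ((Q - 1) *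
        ((Q ^ n * -c0 - c0 * Ci ^ k) * ((D.c ^ (-e1) : Aˣ) : A)))) = _
      have h8 : ((D.two ^ (((k : ℤ) - 1) * (e1 + 1 + k)) : Aˣ) : A) * ((Q - 2) * ((Q - 1) *
          ((Q ^ n * -c0 - c0 * Ci ^ k) * ((D.c ^ (-e1) : Aˣ) : A)))) =
          (Q - 2) * (Q - 1) * (Q ^ n * -c0 - c0 * Ci ^ k) *
          (((D.two ^ (((k : ℤ) - 1) * (e1 + 1 + k)) : Aˣ) : A) *
            ((D.c ^ (-e1) : Aˣ) : A)) := by ring
      rw [h8, hu, hc0]
      have h9 : (Q ^ n * -(r + Ci) - (r + Ci) * Ci ^ k) * C ^ (k + 1) =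
          -((r * C + 1) * (Q ^ n * C ^ k + 1)) := by
        rw [pow_succ]
        linear_combination (-(Q ^ n * C ^ k + 1)) * hCC - (r + Ci) * C * hCCk
      have h10 : (Q - 2) * (Q - 1) * (Q ^ n * -(r + Ci) - (r + Ci) * Ci ^ k) * C ^ (k + 1) =
          (Q - 2) * (Q - 1) * ((Q ^ n * -(r + Ci) - (r + Ci) * Ci ^ k) * C ^ (k + 1)) := by ring
      rw [h10, h9, hQC]
      push_cast
      ring
    rw [hM] at h5
    have h11 := D.pnat (2 * (2 ^ (k - 1) - 1) * (2 ^ k - 1) * (2 ^ (n + k - 1) - 1) *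
          (2 ^ (k * (n + k - 1)) + 1)) 1
    rw [mul_one, h5, hpD] at h11
    exact h11.symm
  · have h6 := hSC k A G D _ _ _ _ hY 1
    have h6' : D.a * D.p (((D.q ^ (1 : ℤ) : Aˣ) : A) * -c0) * D.a =
      D.p (((D.two ^ (1 : ℤ) : Aˣ) : A) * -(Q - 1)) * D.a *
        D.p (((D.q ^ (1 : ℤ) : Aˣ) : A) * -(r * (Q - 1) * ((D.c ^ (k : ℤ) : Aˣ) : A))) *
        D.Z ^ (2 * (k : ℤ) - k * 1) := h6
    have x1 : ((D.q ^ (1 : ℤ) : Aˣ) : A) * -c0 = (((2 : ℤ) ^ n * 2 ^ k - 2 : ℤ) : A) := by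
      rw [zpow_one, hc0, hr]
      show Q * -(-(2 : A) ^ n + Ci) = _
      push_cast
      rw [← hQ]
      linear_combination (-2) * hCC - Ci * hQC
    have x2 : ((D.two ^ (1 : ℤ) : Aˣ) : A) * -(Q - 1) = ((-(2 * ((2 : ℤ) ^ k - 1)) : ℤ) : A) := by
      rw [zpow_one, D.htwo, hQ]
      push_cast
      ring
    have x3 : ((D.q ^ (1 : ℤ) : Aˣ) : A) * -(r * (Q - 1) * ((D.c ^ (k : ℤ) : Aˣ) : A)) =
        (((2 : ℤ) ^ n * (2 ^ k - 1) * 2 ^ (k ^ 2) : ℤ) : A) := by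
      rw [zpow_one, hCk, hr]
      show Q * -(-(2 : A) ^ n * (Q - 1) * C ^ k) = _
      have h12 : Q * C ^ k = 2 ^ (k ^ 2) := by
        rw [hQ, hC, ← pow_mul, ← pow_add]
        congr 1
        obtain ⟨j, rfl⟩ : ∃ j, k = j + 1 := ⟨k - 1, by omega⟩
        simp
        ring
      push_cast
      rw [← hQ]
      linear_combination (2 ^ n * (Q - 1)) * h12
    have x4 : D.Z ^ (2 * (k : ℤ) - k * 1) = f ^ ((1 - (k : ℤ)) * k) := by
      rw [hZ, ← zpow_mul]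
      congr 1
      ring
    rw [x1, x2, x3, x4, pcast D hpD, pcast D hpD, pcast D hpD, hDa] at h6'
    exact h6'

end Pool.Agent.Helper1.RKI
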